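import Pool.Agent.helper26.IM.SpecA

/-!
# Project im: module EQM (helper24)
-/

set_option autoImplicit false

open Finset

namespace Pool.Agent.helper26.IM

open Pool.Agent.RRank Pool.Agent.helper35.MR

section

variable {X Y Z K : Type} [Field K]

/-- representation as a sum of `q` products -/
def EQM_R (f : X → Y → Z → K) (q : ℕ) : Prop :=
  ∃ (a : Fin q → X → K) (b : Fin q → Y → K) (c : Fin q → Z → K),
    ∀ x y z, f x y z = ∑ s, a s x * b s y * c s z

theorem EQM_R.of_fintype {f : X → Y → Z → K} {S : Type} [Fintype S] (a : S → X → K) (b : S → Y → K)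
    (c : S → Z → K) {q : ℕ} (hq : Fintype.card S ≤ q)
    (h : ∀ x y z, f x y z = ∑ s, a s x * b s y * c s z) : EQM_R f q := by
  classical
  obtain ⟨e⟩ : Nonempty (S ↪ Fin q) := by
    rw [← Fintype.card_fin q] at hq
    exact Function.Embedding.nonempty_of_card_le hq
  refine ⟨fun i x => ∑ s, if e s = i then a s x else 0, fun i y => ∑ s, if e s = i then b s y else 0,
    fun i z => ∑ s, if e s = i then c s z else 0, fun x y z => ?_⟩
  rw [h]
  have key : ∀ i : Fin q, (∑ s, if e s = i then a s x else 0) * (∑ s, if e s = i then b s y else 0) *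
      (∑ s, if e s = i then c s z else 0) = ∑ s, if e s = i then a s x * b s y * c s z else 0 := by
    intro i
    by_cases hi : ∃ s, e s = i
    · obtain ⟨s₀, rfl⟩ := hi
      simp [e.injective.eq_iff]
    · have h0 : ∀ g : S → K, (∑ s, if e s = i then g s else 0) = 0 := fun g =>
        Finset.sum_eq_zero fun s _ => by rw [if_neg fun h => hi ⟨s, h⟩]
      rw [h0, h0, h0, h0]
      ring
  rw [Finset.sum_congr rfl fun i _ => key i, Finset.sum_comm]
  refine Finset.sum_congr rfl fun s _ => ?_
  simp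

theorem EQM_R.mono {f : X → Y → Z → K} {q q' : ℕ} (h : EQM_R f q) (hq : q ≤ q') : EQM_R f q' := by
  obtain ⟨a, b, c, h⟩ := h
  exact EQM_R.of_fintype a b c (by simpa using hq) h

theorem EQM_R.zero : EQM_R (fun (_ : X) (_ : Y) (_ : Z) => (0 : K)) 0 :=
  ⟨fun i => i.elim0, fun i => i.elim0, fun i => i.elim0, fun x y z => by simp⟩

theorem EQM_R.const (c : K) : EQM_R (fun (_ : X) (_ : Y) (_ : Z) => c) 1 :=
  ⟨fun _ _ => c, fun _ _ => 1, fun _ _ => 1, fun x y z => by simp⟩

theorem EQM_R.add {f g : X → Y → Z → K} {q q' : ℕ} (h : EQM_R f q) (h' : EQM_R g q') :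
    EQM_R (fun x y z => f x y z + g x y z) (q + q') := by
  obtain ⟨a, b, c, h⟩ := h
  obtain ⟨a', b', c', h'⟩ := h'
  refine EQM_R.of_fintype (S := Fin q ⊕ Fin q') (Sum.elim a a') (Sum.elim b b') (Sum.elim c c')
    (by simp) fun x y z => ?_
  rw [h, h']
  simp only [Fintype.sum_sum_type, Sum.elim_inl, Sum.elim_inr]

theorem EQM_R.mul {f g : X → Y → Z → K} {q q' : ℕ} (h : EQM_R f q) (h' : EQM_R g q') :
    EQM_R (fun x y z => f x y z * g x y z) (q * q') := by
  obtain ⟨a, b, c, h⟩ := h
  obtain ⟨a', b', c', h'⟩ := h'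
  refine EQM_R.of_fintype (S := Fin q × Fin q') (fun p x => a p.1 x * a' p.2 x)
    (fun p y => b p.1 y * b' p.2 y) (fun p z => c p.1 z * c' p.2 z) (by simp) fun x y z => ?_
  rw [h, h', Finset.sum_mul_sum, Fintype.sum_prod_type]
  exact Finset.sum_congr rfl fun i _ => Finset.sum_congr rfl fun j _ => by ring

theorem EQM_R.sum {ι : Type} (s : Finset ι) {f : ι → X → Y → Z → K} (h : ∀ i ∈ s, ∃ q, EQM_R (f i) q) :
    ∃ q, EQM_R (fun x y z => ∑ i ∈ s, f i x y z) q := by
  classical
  induction s using Finset.induction_on with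
  | empty => exact ⟨0, by simpa using EQM_R.zero⟩
  | insert i s hi ih =>
    obtain ⟨q, hq⟩ := ih fun j hj => h j (Finset.mem_insert_of_mem hj)
    obtain ⟨q', hq'⟩ := h i (Finset.mem_insert_self i s)
    refine ⟨q' + q, ?_⟩
    simp only [Finset.sum_insert hi]
    exact hq'.add hq

/-- polynomial with coefficients which are finite sums of products -/
theorem EQM_of_poly {T : X → Y → Z → K} {E : Set (X × Y × Z)} (N : ℕ) (c : ℕ → X → Y → Z → K)
    (hc : ∀ i, ∃ q, EQM_R (c i) q)
    (h : ∀ x y z, (x, y, z) ∈ E → T x y z ^ N + ∑ i ∈ Finset.range N, c i x y z * T x y z ^ i = 0) :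
    EqOn T E := by
  choose q hq using hc
  let Q := ∑ i ∈ Finset.range N, q i
  have hQ : ∀ i : Fin N, EQM_R (c i) Q := fun i =>
    (hq i).mono (Finset.single_le_sum (f := fun i => q i) (fun _ _ => Nat.zero_le _)
      (Finset.mem_range.2 i.2))
  choose a b d habd using hQ
  refine ⟨N, Q, fun x i s => a i s x, fun y i s => b i s y, fun z i s => d i s z, fun x y z hE => ?_⟩
  rw [← h x y z hE, ← Fin.sum_univ_eq_sum_range (fun i => c i x y z * T x y z ^ i)]
  congr 1
  refine Finset.sum_congr rfl fun i _ => ?_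
  rw [habd]

end

theorem EQM : EQM_stmt := by
  intro K _ X Y Z T E E' hE hE'
  classical
  obtain ⟨N, q, α, β, γ, h⟩ := hE
  obtain ⟨N', q', α', β', γ', h'⟩ := hE'
  -- coefficient families, indexed by `ℕ`
  let C : ℕ → X → Y → Z → K := fun i x y z =>
    if hi : i < N then ∑ s, α x ⟨i, hi⟩ s * β y ⟨i, hi⟩ s * γ z ⟨i, hi⟩ s else 0
  let C' : ℕ → X → Y → Z → K := fun i x y z =>
    if hi : i < N' then ∑ s, α' x ⟨i, hi⟩ s * β' y ⟨i, hi⟩ s * γ' z ⟨i, hi⟩ s else 0
  have hC : ∀ i, ∃ q, EQM_R (C i) q := by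
    intro i
    by_cases hi : i < N
    · exact ⟨q, fun s x => α x ⟨i, hi⟩ s, fun s y => β y ⟨i, hi⟩ s, fun s z => γ z ⟨i, hi⟩ s,
        fun x y z => by simp only [C, dif_pos hi]⟩
    · refine ⟨0, ?_⟩
      have : C i = fun _ _ _ => 0 := by
        funext x y z
        simp only [C, dif_neg hi]
      rw [this]
      exact EQM_R.zero
  have hC' : ∀ i, ∃ q, EQM_R (C' i) q := by
    intro i
    by_cases hi : i < N'
    · exact ⟨q', fun s x => α' x ⟨i, hi⟩ s, fun s y => β' y ⟨i, hi⟩ s, fun s z => γ' z ⟨i, hi⟩ s,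
        fun x y z => by simp only [C', dif_pos hi]⟩
    · refine ⟨0, ?_⟩
      have : C' i = fun _ _ _ => 0 := by
        funext x y z
        simp only [C', dif_neg hi]
      rw [this]
      exact EQM_R.zero
  have hsum : ∀ x y z, (x, y, z) ∈ E →
      T x y z ^ N + ∑ i ∈ Finset.range N, C i x y z * T x y z ^ i = 0 := by
    intro x y z hxyz
    rw [← h x y z hxyz, ← Fin.sum_univ_eq_sum_range (fun i => C i x y z * T x y z ^ i)]
    congr 1
    refine Finset.sum_congr rfl fun i _ => ?_
    simp only [C, dif_pos i.2, Fin.eta]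
  have hsum' : ∀ x y z, (x, y, z) ∈ E' →
      T x y z ^ N' + ∑ i ∈ Finset.range N', C' i x y z * T x y z ^ i = 0 := by
    intro x y z hxyz
    rw [← h' x y z hxyz, ← Fin.sum_univ_eq_sum_range (fun i => C' i x y z * T x y z ^ i)]
    congr 1
    refine Finset.sum_congr rfl fun i _ => ?_
    simp only [C', dif_pos i.2, Fin.eta]
  -- the product polynomial
  let c : ℕ → X → Y → Z → K := fun k x y z =>
    (if N ≤ k then C' (k - N) x y z else 0) + (if N' ≤ k then C (k - N') x y z else 0) +
      ∑ i ∈ Finset.range N, ∑ j ∈ Finset.range N', if i + j = k then C i x y z * C' j x y z else 0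
  refine EQM_of_poly (N + N') c ?_ ?_
  · intro k
    have h1 : ∃ q, EQM_R (fun x y z => if N ≤ k then C' (k - N) x y z else 0) q := by
      by_cases hk : N ≤ k
      · simpa only [if_pos hk] using hC' (k - N)
      · exact ⟨0, by simpa only [if_neg hk] using EQM_R.zero⟩
    have h2 : ∃ q, EQM_R (fun x y z => if N' ≤ k then C (k - N') x y z else 0) q := by
      by_cases hk : N' ≤ k
      · simpa only [if_pos hk] using hC (k - N')
      · exact ⟨0, by simpa only [if_neg hk] using EQM_R.zero⟩
    have h3 : ∃ q, EQM_R (fun x y z => ∑ i ∈ Finset.range N, ∑ j ∈ Finset.range N',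
        if i + j = k then C i x y z * C' j x y z else 0) q := by
      refine EQM_R.sum _ fun i _ => EQM_R.sum _ fun j _ => ?_
      by_cases hk : i + j = k
      · obtain ⟨q₁, h1⟩ := hC i
        obtain ⟨q₂, h2⟩ := hC' j
        exact ⟨q₁ * q₂, by simpa only [if_pos hk] using h1.mul h2⟩
      · exact ⟨0, by simpa only [if_neg hk] using EQM_R.zero⟩
    obtain ⟨q₁, h1⟩ := h1
    obtain ⟨q₂, h2⟩ := h2
    obtain ⟨q₃, h3⟩ := h3
    exact ⟨_, (h1.add h2).add h3⟩
  · intro x y z hxyz
    have hprod : (T x y z ^ N + ∑ i ∈ Finset.range N, C i x y z * T x y z ^ i) *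
        (T x y z ^ N' + ∑ i ∈ Finset.range N', C' i x y z * T x y z ^ i) = 0 := by
      rcases hxyz with hxyz | hxyz
      · rw [hsum x y z hxyz, zero_mul]
      · rw [hsum' x y z hxyz, mul_zero]
    rw [← hprod]
    set τ := T x y z
    have e1 : ∑ k ∈ Finset.range (N + N'), (if N ≤ k then C' (k - N) x y z else 0) * τ ^ k =
        τ ^ N * ∑ i ∈ Finset.range N', C' i x y z * τ ^ i := by
      rw [Finset.sum_range_add, Finset.mul_sum]
      rw [Finset.sum_eq_zero (s := Finset.range N) (fun k hk => by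
        rw [if_neg (not_le.2 (Finset.mem_range.1 hk)), zero_mul]), zero_add]
      refine Finset.sum_congr rfl fun k _ => ?_
      rw [if_pos (Nat.le_add_right N k), Nat.add_sub_cancel_left, pow_add]
      ring
    have e2 : ∑ k ∈ Finset.range (N + N'), (if N' ≤ k then C (k - N') x y z else 0) * τ ^ k =
        τ ^ N' * ∑ i ∈ Finset.range N, C i x y z * τ ^ i := by
      rw [add_comm N N', Finset.sum_range_add, Finset.mul_sum]
      rw [Finset.sum_eq_zero (s := Finset.range N') (fun k hk => by
        rw [if_neg (not_le.2 (Finset.mem_range.1 hk)), zero_mul]), zero_add]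
      refine Finset.sum_congr rfl fun k _ => ?_
      rw [if_pos (Nat.le_add_right N' k), Nat.add_sub_cancel_left, pow_add]
      ring
    have e3 : ∑ k ∈ Finset.range (N + N'), (∑ i ∈ Finset.range N, ∑ j ∈ Finset.range N',
        if i + j = k then C i x y z * C' j x y z else 0) * τ ^ k =
        (∑ i ∈ Finset.range N, C i x y z * τ ^ i) * ∑ i ∈ Finset.range N', C' i x y z * τ ^ i := by
      simp only [Finset.sum_mul]
      rw [Finset.sum_comm]
      refine Finset.sum_congr rfl fun i hi => ?_
      rw [Finset.sum_comm, Finset.mul_sum]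
      refine Finset.sum_congr rfl fun j hj => ?_
      rw [Finset.mem_range] at hi hj
      rw [Finset.sum_eq_single (i + j)]
      · rw [if_pos rfl, pow_add]
        ring
      · intro k _ hk
        rw [if_neg (Ne.symm hk), zero_mul]
      · intro hk
        exact absurd (Finset.mem_range.2 (by omega)) hk
    simp only [c, add_mul, Finset.sum_add_distrib]
    rw [e1, e2, e3, pow_add]
    ring

end Pool.Agent.helper26.IM
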