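import Pool.Agent.helper26.IM.SpecA

/-!
# Project im: module FIN (helper24)
-/

set_option autoImplicit false

open Finset

namespace Pool.Agent.helper26.IM

open Pool.Agent.RRank Pool.Agent.helper35.MR

/-- the roots of a monic equation: at most `N` -/
theorem FIN_roots {K : Type} [Field K] (N : ℕ) (c : Fin N → K) :
    ∃ S : Finset K, S.card ≤ N ∧ ∀ t : K, t ^ N + ∑ i, c i * t ^ (i : ℕ) = 0 → t ∈ S := by
  classical
  let P : Polynomial K := Polynomial.X ^ N + ∑ i : Fin N, Polynomial.C (c i) * Polynomial.X ^ (i : ℕ)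
  have hdeg : (∑ i : Fin N, Polynomial.C (c i) * Polynomial.X ^ (i : ℕ)).degree < (N : WithBot ℕ) := by
    refine lt_of_le_of_lt (Polynomial.degree_sum_le _ _) ?_
    exact (Finset.sup_lt_iff (WithBot.bot_lt_coe N)).2 fun i _ =>
      lt_of_le_of_lt (Polynomial.degree_C_mul_X_pow_le _ _) (WithBot.coe_lt_coe.2 i.2)
  have hP : P.Monic := Polynomial.monic_X_pow_add hdeg
  have hN : P.natDegree ≤ N := by
    have h1 : P.degree ≤ (N : WithBot ℕ) := by
      refine (Polynomial.degree_add_le _ _).trans (max_le ?_ hdeg.le)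
      exact Polynomial.degree_X_pow_le N
    exact Polynomial.natDegree_le_of_degree_le h1
  refine ⟨P.roots.toFinset, (Multiset.toFinset_card_le _).trans ((Polynomial.card_roots' P).trans hN), ?_⟩
  intro t ht
  rw [Multiset.mem_toFinset, Polynomial.mem_roots hP.ne_zero, Polynomial.IsRoot.def]
  simp only [P, Polynomial.eval_add, Polynomial.eval_pow, Polynomial.eval_X,
    Polynomial.eval_finsetSum, Polynomial.eval_mul, Polynomial.eval_C]
  exact ht

/-- the contracted tensor is a sum of few slices if `t` is -/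
theorem FIN_contract {n m : ℕ} {K : Type} [Field K]
    {t : Fin n × Fin m → Fin n × Fin m → Fin n × Fin m → K} {r : ℕ} (h : S3 t r)
    (μ ν ω : Fin n → Fin m → K) :
    S3 (fun i j k => ∑ e, ∑ f, ∑ g, μ i e * ν j f * ω k g * t (i, e) (j, f) (k, g)) r := by
  have h1 : S3 (fun (i : Fin n) (y z : Fin n × Fin m) => ∑ e, μ i e * t (i, e) y z) r :=
    S3.lin1 h (fun (i : Fin n) (e : Fin m) => ((i, e) : Fin n × Fin m)) μ
  have h2 : S3 (fun (j : Fin n) (i : Fin n) (z : Fin n × Fin m) =>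
      ∑ f, ν j f * ∑ e, μ i e * t (i, e) (j, f) z) r :=
    S3.lin1 h1.swap12 (fun (i : Fin n) (e : Fin m) => ((i, e) : Fin n × Fin m)) ν
  have h3 : S3 (fun (k : Fin n) (j : Fin n) (i : Fin n) =>
      ∑ g, ω k g * ∑ f, ν j f * ∑ e, μ i e * t (i, e) (j, f) (k, g)) r :=
    S3.lin1 (S3.swap12 (S3.swap13 h2.swap12)).swap12 (fun (i : Fin n) (e : Fin m) => ((i, e) : Fin n × Fin m)) ω
  have h4 := h3.swap13
  have h5 : (fun i j k => ∑ e, ∑ f, ∑ g, μ i e * ν j f * ω k g * t (i, e) (j, f) (k, g)) =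
      fun (i j k : Fin n) => ∑ g, ω k g * ∑ f, ν j f * ∑ e, μ i e * t (i, e) (j, f) (k, g) := by
    funext i j k
    simp only [Finset.mul_sum]
    rw [Finset.sum_comm]
    rw [show (∑ g, ∑ f, ∑ e, ω k g * (ν j f * (μ i e * t (i, e) (j, f) (k, g)))) =
      ∑ f, ∑ g, ∑ e, ω k g * (ν j f * (μ i e * t (i, e) (j, f) (k, g))) from Finset.sum_comm]
    refine Finset.sum_congr rfl fun f _ => ?_
    rw [Finset.sum_comm]
    exact Finset.sum_congr rfl fun g _ => Finset.sum_congr rfl fun e _ => by ring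
  rw [h5]
  exact h4

theorem FIN (hFVT : FVT_stmt) (hLWF : LWF_stmt) (hFNS : FNS_stmt) : FIN_stmt := by
  intro l N q m
  classical
  obtain ⟨G, hG⟩ := hFVT (N * m ^ 3) l
  refine ⟨G + 1, ?_⟩
  intro K _ D₀ t hgood
  obtain ⟨eqn, off, diag, nf⟩ := hgood
  apply nf
  -- values
  have hroots : ∀ e f g : Fin m, ∃ S : Finset K, S.card ≤ N ∧ ∀ i j k : Fin (G + 1),
      t (i, e) (j, f) (k, g) ∈ S := by
    intro e f g
    obtain ⟨S, h1, h2⟩ := FIN_roots N (fun i => ∑ s, D₀ (Sum.inl (0, e, i, s)) *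
      D₀ (Sum.inl (1, f, i, s)) * D₀ (Sum.inl (2, g, i, s)))
    exact ⟨S, h1, fun i j k => h2 _ (eqn (i, e) (j, f) (k, g))⟩
  choose S hS1 hS2 using hroots
  let U : Finset K := Finset.univ.biUnion fun p : Fin m × Fin m × Fin m => S p.1 p.2.1 p.2.2
  have hU : U.card ≤ N * m ^ 3 := by
    refine (Finset.card_biUnion_le).trans ?_
    refine (Finset.sum_le_card_nsmul _ _ N fun p _ => hS1 _ _ _).trans ?_
    simp only [Finset.card_univ, Fintype.card_prod, Fintype.card_fin, smul_eq_mul]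
    apply le_of_eq
    ring
  have hsub : Set.range (fun p : (Fin (G + 1) × Fin m) × (Fin (G + 1) × Fin m) × (Fin (G + 1) × Fin m) =>
      t p.1 p.2.1 p.2.2) ⊆ (U : Set K) := by
    rintro _ ⟨p, rfl⟩
    simp only [U, Finset.coe_biUnion, Set.mem_iUnion, Finset.mem_coe]
    exact ⟨(p.1.2, p.2.1.2, p.2.2.2), Finset.mem_univ _, hS2 _ _ _ _ _ _⟩
  have hfin := (U.finite_toSet).subset hsub
  refine hG K _ _ _ t hfin ?_ ?_
  · have := Set.ncard_le_ncard hsub U.finite_toSet
    rw [Set.ncard_coe_finset] at this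
    exact this.trans hU
  · intro hS3
    have h1 : Full3 (Wt t fun _ : Fin (G + 1) => D₀) := by
      refine hLWF K (G + 1) _ (fun i j k h => off i j k h) (fun i h => ?_)
      have := diag i
      rw [h, zero_mul] at this
      exact zero_ne_one this
    have h2 : S3 (Wt t fun _ : Fin (G + 1) => D₀) G := FIN_contract hS3 _ _ _
    exact hFNS K (Fin (G + 1)) _ h1 G (by simp) h2

end Pool.Agent.helper26.IM
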