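import Pool.Agent.helper26.IM.SpecA

/-!
# Project im: module FZN (helper24)
-/

set_option autoImplicit false

open Finset

namespace Pool.Agent.helper26.IM

open Pool.Agent.RRank Pool.Agent.helper35.MR

/-- the roots of a monic equation form a finite set -/
theorem FZN_roots {K : Type} [Field K] (N : ℕ) (c : Fin N → K) :
    {t : K | t ^ N + ∑ i, c i * t ^ (i : ℕ) = 0}.Finite := by
  classical
  let P : Polynomial K := Polynomial.X ^ N + ∑ i : Fin N, Polynomial.C (c i) * Polynomial.X ^ (i : ℕ)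
  have hdeg : (∑ i : Fin N, Polynomial.C (c i) * Polynomial.X ^ (i : ℕ)).degree < (N : WithBot ℕ) := by
    refine lt_of_le_of_lt (Polynomial.degree_sum_le _ _) ?_
    exact (Finset.sup_lt_iff (WithBot.bot_lt_coe N)).2 fun i _ =>
      lt_of_le_of_lt (Polynomial.degree_C_mul_X_pow_le _ _) (WithBot.coe_lt_coe.2 i.2)
  have hP : P.Monic := Polynomial.monic_X_pow_add hdeg
  refine (P.roots.toFinset.finite_toSet).subset ?_
  intro t ht
  rw [Finset.mem_coe, Multiset.mem_toFinset, Polynomial.mem_roots hP.ne_zero, Polynomial.IsRoot.def]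
  simp only [Set.mem_ofPred_eq] at ht
  simp only [P, Polynomial.eval_add, Polynomial.eval_pow, Polynomial.eval_X,
    Polynomial.eval_finsetSum, Polynomial.eval_mul, Polynomial.eval_C]
  exact ht

/-- pigeonhole for ultrafilters -/
theorem FZN_pigeon {X V : Type} (𝓊 : Ultrafilter X) (f : X → V) (S : Set V) (hS : S.Finite)
    (h : ∀ᶠ x in (𝓊 : Filter X), f x ∈ S) : ∃ a ∈ S, ∀ᶠ x in (𝓊 : Filter X), f x = a := by
  have h0 : {x | f x ∈ S} ∈ 𝓊 := h
  have h1 : (⋃ a ∈ S, {x | f x = a}) ∈ 𝓊 := by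
    refine Filter.mem_of_superset h0 ?_
    intro x hx
    simp only [Set.mem_iUnion, Set.mem_ofPred_eq, exists_prop]
    exact ⟨f x, hx, rfl⟩
  obtain ⟨a, ha, h2⟩ := (Ultrafilter.finite_biUnion_mem_iff hS).1 h1
  exact ⟨a, ha, h2⟩

theorem FZN : FZN_stmt := by
  intro K _ _ X Y Z T N q α β γ hE hα 𝓊
  classical
  obtain ⟨a, -, ha⟩ := FZN_pigeon 𝓊 α (Set.range α) hα (Filter.Eventually.of_forall fun x => ⟨x, rfl⟩)
  have h1 : ∀ y z, ∃ c : K, ∀ᶠ x in (𝓊 : Filter X), T x y z = c := by
    intro y z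
    obtain ⟨c, -, hc⟩ := FZN_pigeon 𝓊 (fun x => T x y z) _
      (FZN_roots N fun i => ∑ s, a i s * β y i s * γ z i s) (by
        filter_upwards [ha] with x hx
        have := hE x y z
        rw [hx] at this
        exact this)
    exact ⟨c, hc⟩
  choose c hc using h1
  refine ⟨0, fun i => i.elim0, fun i => i.elim0, 1, fun _ _ => 1, fun v w _ _ =>
    ⟨fun _ => v.sum fun y a => w.sum fun z b => a * b * c y z, ?_⟩⟩
  have h2 : ∀ᶠ x in (𝓊 : Filter X), ∀ y ∈ v.support, ∀ z ∈ w.support, T x y z = c y z := by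
    rw [Filter.eventually_all_finset]
    intro y _
    rw [Filter.eventually_all_finset]
    intro z _
    exact hc y z
  filter_upwards [h2] with x hx
  simp only [Finset.univ_unique, Finset.sum_const, Finset.card_singleton, mul_one, one_smul,
    Finsupp.sum]
  refine Finset.sum_congr rfl fun y hy => Finset.sum_congr rfl fun z hz => ?_
  rw [hx y hy z hz]

end Pool.Agent.helper26.IM
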